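import Pool.Agent.D0H69.L3K.Fin
import Pool.Agent.N883.FF.Lim

/-!
# Project L3, module DENK: the exact proportion in the family of all the `D = 3 z`

`z` runs through the family `FamE` of the project FF (`Pool/Agent/N883/FF/Cnt.lean`): cube-free, not a
unit, congruent to a power of `ω` modulo `3`.
-/

set_option autoImplicit false

open scoped Classical
open Filter

namespace Pool.Agent.D0H69.L3K

open Pool.Agent.Y692.QS (Ei w nr)
open Pool.Agent.Y703.CT (Dt pD)
open Pool.Agent.Y703.XK (c9)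
open Pool.Agent.N883.FF (ClP FamE card_fam card_all PP)
open Pool.Agent.D0H43.L3 (KerT tq)

/-- **L3-DENK for the family.** -/
theorem denk_fam (T : Ei → Prop)
    (hT : ∀ (i : ZMod 3) (n : ℕ) (π : Fin (n + 1) → Ei) (e : Fin (n + 1) → ZMod 3), Dt π e →
      (T (w ^ i.val * pD π e) ↔ KerT π e i)) :
    Tendsto (fun X : ℕ => ({D : Ei | nr D ≤ X ∧ FamE D ∧ T D}.ncard : ℝ) /
      ({D : Ei | nr D ≤ X ∧ FamE D}.ncard : ℝ)) atTop (nhds c9) := by
  have hlim : ∀ i : ZMod 3, Tendsto (fun X : ℕ =>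
      ({z : Ei | nr z ≤ X ∧ ClP z ∧ z ≠ 1 ∧ T (w ^ i.val * z)}.ncard : ℝ) / (PP X : ℝ)) atTop
        (nhds c9) := by
    intro i
    refine denk i (fun z => z ≠ 1 ∧ T (w ^ i.val * z)) ?_
    intro n π e hdt
    have hne : pD π e ≠ 1 := by
      intro h
      have := Pool.Agent.R419.CE.nunit hdt
      rw [h] at this
      exact this isUnit_one
    rw [and_iff_right hne]
    exact hT i n π e hdt
  have hP : Tendsto (fun X : ℕ => (PP X : ℝ)) atTop atTop := top
  have h0 : Tendsto (fun X : ℕ => 1 / (PP X : ℝ)) atTop (nhds 0) := by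
    simp only [one_div]
    exact tendsto_inv_atTop_zero.comp hP
  have h1 := (((hlim 0).add (hlim 1)).add (hlim 2)).div
    ((tendsto_const_nhds (x := (1 : ℝ))).sub h0 |>.const_mul 3) (by norm_num)
  have e1 : (c9 + c9 + c9) / (3 * (1 - 0)) = c9 := by ring
  rw [e1] at h1
  refine h1.congr' ?_
  filter_upwards [hP.eventually_gt_atTop 1, eventually_ge_atTop 1] with X hX hX1
  rw [card_all X hX1, card_fam T X]
  have hu : (Finset.univ : Finset (ZMod 3)) = {0, 1, 2} := by decide
  rw [hu, Finset.sum_insert (by decide), Finset.sum_insert (by decide), Finset.sum_singleton]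
  push_cast
  have h2 : (PP X : ℝ) ≠ 0 := by linarith
  have h3 : (PP X : ℝ) - 1 ≠ 0 := by linarith
  have h4 : 1 - 1 / (PP X : ℝ) ≠ 0 := by
    rw [Ne, sub_eq_zero, eq_div_iff h2]
    intro h
    apply h3
    linarith
  simp only [Pi.div_apply]
  field_simp
  ring

end Pool.Agent.D0H69.L3K
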