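import Pool.Agent.D0H69.L3K.Stm
import Pool.Agent.R419.KF.FewBad

/-!
# Project FF: few sets have degenerate labels

Copy of the file `R419/KF/FewBad.lean` of helper419 (after `Y433/XK/Few.lean` of helper433) with the
additional label at `ω`.
-/

set_option autoImplicit false

open scoped Classical

namespace Pool.Agent.D0H69.L3K

open Finset Filter
open Pool.Agent.Y692.QS (Ei)
open Pool.Agent.Y715.T.Rec (cs)
open Pool.Agent.Y715.T.RecG (Pq)
open Pool.Agent.Y699.E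
open Pool.Agent.Y703.CX (eL zz kk)
open Pool.Agent.Y703.XK (sm la bl)
open Pool.Agent.R419.KF (SG)
open Pool.Agent.Y433.XK (pN pN_pos)
open Pool.Agent.R419.KF.Few (fiber_le gen)

namespace Bad

/-- the labels are degenerate for the pair `A`, `B` and the coefficient `t` at `ω` -/
def DgB (τ : Ei → ZMod 3) (A B : Finset Ei) (t : ZMod 3) (T : Finset Ei) : Prop :=
  ∀ π ∈ T, ∑ u ∈ A, cs u π - ∑ u ∈ B, cs u π + t * τ π = 0

variable {τ : Ei → ZMod 3}

theorem notNdB {S₀ T : Finset Ei} (h : ¬ NdT τ S₀ T) : ∃ (A B : Finset Ei) (t : ZMod 3), A ⊆ S₀ ∧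
    B ⊆ S₀ ∧ Disjoint A B ∧ (A ≠ B ∨ t ≠ 0) ∧ DgB τ A B t T := by
  unfold NdT at h
  push Not at h
  obtain ⟨v, t, hvt, h2⟩ := h
  refine ⟨S₀.filter fun u => v u = 1, S₀.filter fun u => v u = 2, t, filter_subset _ _,
    filter_subset _ _, ?_, ?_, ?_⟩
  · rw [disjoint_left]
    intro x hx hx2
    rw [mem_filter] at hx hx2
    rw [hx.2] at hx2
    exact absurd hx2.2 (by decide)
  · rcases hvt with ⟨u, hu, hu0⟩ | ht
    · left
      intro heq
      have key : ∀ c : ZMod 3, c ≠ 0 → c = 1 ∨ c = 2 := by decide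
      rcases key (v u) hu0 with h1 | h1
      · have : u ∈ S₀.filter fun u => v u = 2 := by
          rw [← heq, mem_filter]
          exact ⟨hu, h1⟩
        rw [mem_filter, h1] at this
        exact absurd this.2 (by decide)
      · have : u ∈ S₀.filter fun u => v u = 1 := by
          rw [heq, mem_filter]
          exact ⟨hu, h1⟩
        rw [mem_filter, h1] at this
        exact absurd this.2 (by decide)
    · exact Or.inr ht
  · intro π hπ
    have h3 := h2 π hπ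
    rw [← h3, sum_filter, sum_filter, ← sum_sub_distrib]
    congr 1
    refine sum_congr rfl fun u _ => ?_
    have key : ∀ a b : ZMod 3, (if a = 1 then b else 0) - (if a = 2 then b else 0) = a * b := by
      decide
    exact key (v u) (cs u π)

theorem val3 {A B : Ei} (hA : PS A) (hB : PS B) (c : ZMod 3) (x : Ei) :
    xab A B x * ez c = 0 ∨ xab A B x * ez c = 1 ∨
      (xab A B x * ez c) ^ 2 + xab A B x * ez c + 1 = 0 := by
  rcases jac_cases A x with h | ⟨a, h⟩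
  · left
    unfold xab
    rw [h, zero_mul, zero_mul]
  · rcases jac_cases B x with h' | ⟨b, h'⟩
    · left
      unfold xab
      rw [h', map_zero, mul_zero, zero_mul]
    · right
      unfold xab
      rw [h, h', conj_ez, ← ez_add, ← ez_add]
      exact ez_val _

theorem pair_count {C : ℝ} (hC0 : 1 ≤ C) (hC : ∀ (A B : Ei) (t : ZMod 3), PS A → PS B →
    (A ≠ B ∨ t ≠ 0) → ∀ T : ℕ, ∑ n ∈ SB T, mf (fun π => (1 + 2 * (xab A B π * ez (t * τ π)).re) / 3) n ≤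
    C * (lg (nrm A * nrm B)) ^ (1 / 3 : ℝ) * (T * (lg T) ^ (-(1 / 3) : ℝ)))
    (X z : ℕ) (S₀ : Finset Ei) (hS₀ : ∀ u ∈ S₀, Pq u ∧ nrm u ≤ z)
    (A B : Finset Ei) (t : ZMod 3) (hA : A ⊆ S₀) (hB : B ⊆ S₀) (hd : Disjoint A B)
    (hAB : A ≠ B ∨ t ≠ 0)
    (F : Finset (Finset Ei)) (hF : ∀ S ∈ F, (S ∈ SG X ∧ sm z S = S₀) ∧ DgB τ A B t (la z S)) :
    (F.card : ℝ) ≤ C * lg (pN S₀) * (((X / pN S₀ : ℕ) : ℝ) *
          (lg (X / pN S₀)) ^ (-(1 / 3) : ℝ)) := by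
  obtain ⟨a1, a2⟩ := PS_prod (S := A) fun π hπ => (hS₀ π (hA hπ)).1
  obtain ⟨b1, b2⟩ := PS_prod (S := B) fun π hπ => (hS₀ π (hB hπ)).1
  set a := ∏ π ∈ A, π with ha
  set b := ∏ π ∈ B, π with hb
  have hab : a ≠ b ∨ t ≠ 0 := by
    rcases hAB with h | h
    · left
      intro h'
      apply h
      rw [← a2, ← b2, h']
    · exact Or.inr h
  have hval : ∀ S ∈ F, ∀ π ∈ la z S, xab a b π * ez (t * τ π) = 1 := by
    intro S hS π hπ
    obtain ⟨⟨h1, h2⟩, h3⟩ := hF S hS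
    have hπq : Pq π ∧ ¬ nrm π ≤ z := by
      unfold la at hπ
      rw [mem_filter] at hπ
      unfold SG at h1
      rw [mem_filter] at h1
      exact ⟨h1.2.1.1 π hπ.1, hπ.2⟩
    have hchi : ∀ u ∈ S₀, chi u π = ez (cs u π) := by
      intro u hu
      refine chi_of fun hdv => ?_
      have := eq_of_dvd (hS₀ u hu).1 hπq.1 hdv
      subst this
      exact hπq.2 (hS₀ u hu).2
    unfold xab jac
    rw [a2, b2, prod_congr rfl fun u hu => hchi u (hA hu), prod_congr rfl fun u hu => hchi u (hB hu),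
      ← Pool.Agent.Y433.XK.ez_sum, ← Pool.Agent.Y433.XK.ez_sum, conj_ez, ← ez_add, ← sub_eq_add_neg, ← ez_add,
      h3 π hπ, ez_zero]
  have h := fiber_le X z S₀ (fun u hu => (hS₀ u hu).1) F (fun S hS => (hF S hS).1)
    (fun π => (1 + 2 * (xab a b π * ez (t * τ π)).re) / 3) (fun π => by
      have := re_nonneg (val3 a1 b1 (t * τ π) π)
      positivity) 1 (fun S hS => by
      refine le_of_eq (prod_eq_one fun π hπ => ?_).symm
      rw [hval S hS π hπ]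
      norm_num)
  rw [mul_one] at h
  refine h.trans ((hC a b t a1 b1 hab _).trans ?_)
  have hnn : nrm a * nrm b ≤ pN S₀ := by
    rw [ha, hb, nrm_prod, nrm_prod, ← prod_union hd]
    unfold pN
    refine prod_le_prod_of_subset_of_one_le' (union_subset hA hB) fun u hu _ => ?_
    exact nrm_pos' (pq_ne (hS₀ u hu).1)
  have h4 : (lg (nrm a * nrm b)) ^ (1 / 3 : ℝ) ≤ lg (pN S₀) := by
    calc (lg (nrm a * nrm b)) ^ (1 / 3 : ℝ) ≤ (lg (nrm a * nrm b)) ^ (1 : ℝ) :=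
          Real.rpow_le_rpow_of_exponent_le (one_le_lg _) (by norm_num)
      _ = lg (nrm a * nrm b) := Real.rpow_one _
      _ ≤ lg (pN S₀) := lg_mono hnn
  have hTl : 0 ≤ ((X / pN S₀ : ℕ) : ℝ) * (lg (X / pN S₀)) ^ (-(1 / 3) : ℝ) :=
    mul_nonneg (Nat.cast_nonneg _) (Real.rpow_nonneg (zero_le_one.trans (one_le_lg _)) _)
  have hC0' : 0 ≤ C := by linarith
  gcongr

theorem bad_count {C : ℝ} (hC0 : 1 ≤ C) (hC : ∀ (A B : Ei) (t : ZMod 3), PS A → PS B →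
    (A ≠ B ∨ t ≠ 0) → ∀ T : ℕ, ∑ n ∈ SB T, mf (fun π => (1 + 2 * (xab A B π * ez (t * τ π)).re) / 3) n ≤
    C * (lg (nrm A * nrm B)) ^ (1 / 3 : ℝ) * (T * (lg T) ^ (-(1 / 3) : ℝ)))
    (X : ℕ) (S₀ : Finset Ei) (hS₀ : ∀ u ∈ S₀, Pq u ∧ nrm u ≤ zz X)
    (G : Finset (Finset Ei))
    (hG : ∀ S ∈ G, S ∈ SG X ∧ (S.card ≤ kk X ∧ ¬ NdT τ (sm (zz X) S) (la (zz X) S)) ∧
      sm (zz X) S = S₀) : (G.card : ℝ) ≤
        (3 * C) * 4 ^ S₀.card * lg (pN S₀) * (((X / pN S₀ : ℕ) : ℝ) *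
          (lg (X / pN S₀)) ^ (-(1 / 3) : ℝ)) := by
  set P : Finset ((Finset Ei × Finset Ei) × ZMod 3) :=
    ((S₀.powerset ×ˢ S₀.powerset) ×ˢ univ).filter fun p => Disjoint p.1.1 p.1.2 ∧
      (p.1.1 ≠ p.1.2 ∨ p.2 ≠ 0) with hP
  have hsub : G ⊆ P.biUnion fun p => G.filter fun S => DgB τ p.1.1 p.1.2 p.2 (la (zz X) S) := by
    intro S hS
    obtain ⟨h1, ⟨h2, h3⟩, h4⟩ := hG S hS
    rw [h4] at h3
    obtain ⟨A, B, t, hA, hB, hd, hAB, hDg⟩ := notNdB h3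
    rw [mem_biUnion]
    refine ⟨((A, B), t), ?_, ?_⟩
    · rw [hP, mem_filter, mem_product, mem_product, mem_powerset, mem_powerset]
      exact ⟨⟨⟨hA, hB⟩, mem_univ _⟩, hd, hAB⟩
    · rw [mem_filter]
      exact ⟨hS, hDg⟩
  have h1 : (G.card : ℝ) ≤ ∑ p ∈ P, ((G.filter fun S => DgB τ p.1.1 p.1.2 p.2 (la (zz X) S)).card : ℝ) := by
    exact_mod_cast (card_le_card hsub).trans card_biUnion_le
  have h2 : ∀ p ∈ P, ((G.filter fun S => DgB τ p.1.1 p.1.2 p.2 (la (zz X) S)).card : ℝ) ≤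
      C * lg (pN S₀) * (((X / pN S₀ : ℕ) : ℝ) * (lg (X / pN S₀)) ^ (-(1 / 3) : ℝ)) := by
    intro p hp
    rw [hP, mem_filter, mem_product, mem_product, mem_powerset, mem_powerset] at hp
    refine pair_count hC0 hC X (zz X) S₀ hS₀ p.1.1 p.1.2 p.2 hp.1.1.1 hp.1.1.2 hp.2.1 hp.2.2 _ ?_
    intro S hS
    rw [mem_filter] at hS
    have h := hG S hS.1
    exact ⟨⟨h.1, h.2.2⟩, hS.2⟩
  have h3 : (P.card : ℝ) ≤ 3 * 4 ^ S₀.card := by
    have : P.card ≤ 3 * 4 ^ S₀.card := by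
      refine (card_filter_le _ _).trans (le_of_eq ?_)
      rw [card_product, card_product, card_powerset, ← mul_pow, card_univ, ZMod.card]
      norm_num
      ring
    exact_mod_cast this
  have hTl : 0 ≤ ((X / pN S₀ : ℕ) : ℝ) * (lg (X / pN S₀)) ^ (-(1 / 3) : ℝ) :=
    mul_nonneg (Nat.cast_nonneg _) (Real.rpow_nonneg (zero_le_one.trans (one_le_lg _)) _)
  have hlg := lg_pos (pN S₀)
  have hC0' : 0 ≤ C := by linarith
  calc (G.card : ℝ) ≤ ∑ p ∈ P, C * lg (pN S₀) * (((X / pN S₀ : ℕ) : ℝ) *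
        (lg (X / pN S₀)) ^ (-(1 / 3) : ℝ)) := h1.trans (sum_le_sum h2)
    _ = P.card * (C * lg (pN S₀) * (((X / pN S₀ : ℕ) : ℝ) *
        (lg (X / pN S₀)) ^ (-(1 / 3) : ℝ))) := by rw [sum_const, nsmul_eq_mul]
    _ ≤ 3 * 4 ^ S₀.card * (C * lg (pN S₀) * (((X / pN S₀ : ℕ) : ℝ) *
        (lg (X / pN S₀)) ^ (-(1 / 3) : ℝ))) :=
        mul_le_mul_of_nonneg_right h3 (by positivity)
    _ = _ := by ring

end Bad

theorem bad {τ : Ei → ZMod 3} (h : S_HALT τ) : S_BADT τ := by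
  intro ε hε
  obtain ⟨C, hC0, hC⟩ := h
  obtain ⟨X₀, hX₀⟩ := gen 4 (3 * C) (by norm_num) (by linarith)
    (fun X S => ¬ NdT τ (sm (zz X) S) (la (zz X) S))
    (fun X S₀ hS₀ _ F hF => Bad.bad_count hC0 hC X S₀ hS₀ F hF) ε hε
  refine ⟨X₀, fun X hX => hX₀ X hX _ fun S hS => ?_⟩
  rw [mem_filter] at hS
  exact hS

end Pool.Agent.D0H69.L3K
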