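import Pool.Agent.D0H69.L3K.Stm
import Pool.Agent.N883.FF.Hal

/-!
# Project L3, module DENK: mean values with a cubic character modulo nine

An adaptation of `Pool/Agent/N883/FF/Hal.lean` (after `Pool/Agent/Y699/E/Hal2.lean`) to the character `d ↦ xab A B d * ez (t * τ d)` on
primary elements.
-/

set_option autoImplicit false

open Finset

namespace Pool.Agent.D0H69.L3K

open Pool.Agent.Y692.QS (Ei w nr nr_mul nr_one)
open Pool.Agent.Y715.T.Rec (cs)
open Pool.Agent.Y715.T.RecG (Pq)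
open Pool.Agent.Y699.E
open Pool.Agent.N883.FF.HalA (nr_of_prm xab_cases nine_eq nrm_nine prm_cop_nine ch_log)
open scoped ComplexConjugate

namespace HalA

/-! ### norms modulo three -/

lemma tau_one {τ : Ei → ZMod 3} (h : Tau τ) : τ 1 = 0 := by
  have h1 := h.mul 1 1 (nr_of_prm prm_one) (nr_of_prm prm_one)
  rw [mul_one] at h1
  exact left_eq_add.mp h1

/-! ### the character -/

variable {τ : Ei → ZMod 3}

open Classical in
/-- the character -/
noncomputable def ps (τ : Ei → ZMod 3) (A B : Ei) (t : ZMod 3) (d : Ei) : ℂ :=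
  if (3 : ℤ) ∣ nr d then 0 else xab A B d * ez (t * τ d)

lemma ps_ch (hτ : Tau τ) {A B : Ei} (hA : PS A) (hB : PS B) (t : ZMod 3) : CH (ps τ A B t) := by
  refine ⟨?_, ?_, ?_⟩
  · unfold ps
    rw [if_neg (nr_of_prm prm_one), (xab_ch hA hB).one, tau_one hτ, mul_zero, ez_zero, mul_one]
  · intro a b
    unfold ps
    by_cases ha : (3 : ℤ) ∣ nr a
    · rw [if_pos ha, if_pos (by rw [nr_mul]; exact ha.mul_right _), zero_mul]
    by_cases hb : (3 : ℤ) ∣ nr b
    · rw [if_pos hb, if_pos (by rw [nr_mul]; exact hb.mul_left _), mul_zero]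
    have hab : ¬ (3 : ℤ) ∣ nr (a * b) := by
      rw [nr_mul]
      intro h
      rcases Int.prime_three.dvd_or_dvd h with h1 | h1
      · exact ha h1
      · exact hb h1
    rw [if_neg ha, if_neg hb, if_neg hab, (xab_ch hA hB).mul, hτ.mul a b ha hb, mul_add, ez_add]
    ring
  · intro a
    unfold ps
    split_ifs with h
    · left; rfl
    · rcases xab_cases A B a with h1 | ⟨c, h1⟩
      · left; rw [h1, zero_mul]
      · right
        rw [h1, ← ez_add]
        exact ez_val _

lemma ps_prm {A B : Ei} {t : ZMod 3} {d : Ei} (hd : prm d) :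
    ps τ A B t d = xab A B d * ez (t * τ d) := if_neg (nr_of_prm hd)

/-! ### the character sum -/

open Classical in
/-- the character on primary elements -/
noncomputable def pf (τ : Ei → ZMod 3) (A B : Ei) (t : ZMod 3) (d : Ei) : ℂ :=
  if prm d then ps τ A B t d else 0

lemma pf_norm (hτ : Tau τ) {A B : Ei} (hA : PS A) (hB : PS B) (t : ZMod 3) (a : Ei) : ‖pf τ A B t a‖ ≤ 1 := by
  unfold pf
  split_ifs
  · exact (ps_ch hτ hA hB t).norm_le a
  · simp

/-- an element `g = 1` modulo `A B`, `g = a` modulo `9` -/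
lemma exists_g {A B : Ei} (hA : PS A) (hB : PS B) {a : Ei} (ha : prm a) :
    ∃ g : Ei, A * B ∣ g - 1 ∧ (9 : Ei) ∣ g - a := by
  have hAB : prm (A * B) := prm_mul hA.prm hB.prm
  obtain ⟨x, y, hxy⟩ := prm_cop_nine hAB
  refine ⟨1 + (a - 1) * (x * (A * B)), ⟨(a - 1) * x, by ring⟩, ⟨-((a - 1) * y), ?_⟩⟩
  linear_combination (a - 1) * hxy

theorem pf_sum (hτ : Tau τ) {A B : Ei} (hA : PS A) (hB : PS B) {t : ZMod 3} (ht : t ≠ 0) (V : ℕ) :
    ‖∑ a ∈ ZB V, pf τ A B t a‖ ≤ 243 * (nrm A * nrm B) * (3 * Real.sqrt V + 1) := by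
  classical
  have h9 : (9 : Ei) ≠ 0 := by decide
  have hq : 9 * (A * B) ≠ 0 := mul_ne_zero h9 (mul_ne_zero hA.ne hB.ne)
  obtain ⟨g₀, hg0, hgt⟩ := hτ.ex
  obtain ⟨g, hg1, hg9⟩ := exists_g hA hB hg0
  have hg3 : prm g := by
    have h1 : (3 : Ei) ∣ g - g₀ := (Dvd.intro _ nine_eq.symm).trans hg9
    have h2 : g - 1 = (g - g₀) + (g₀ - 1) := by ring
    unfold prm
    rw [h2]
    exact dvd_add h1 hg0
  have hxg : xab A B g = 1 := by
    unfold xab
    rw [jac_per hA.ne (a := g) (b := 1) ((dvd_mul_right _ _).trans hg1),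
      jac_per hB.ne (a := g) (b := 1) ((dvd_mul_left _ _).trans hg1), jac_one_right hA.ne,
      jac_one_right hB.ne, map_one, one_mul]
  have hz : ez (t * τ g) ≠ 1 := by
    apply ez_ne
    rw [hτ.congr g g₀ hg9]
    exact mul_ne_zero ht hgt
  have hcop : IsCoprime g (9 * (A * B)) := by
    refine IsCoprime.mul_right (prm_cop_nine hg3) ?_
    obtain ⟨k, hk⟩ := hg1
    exact ⟨1, -k, by linear_combination hk⟩
  have h3 := csum hq (f := pf τ A B t) ?_ (pf_norm hτ hA hB t) hcop hz ?_ V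
  · refine h3.trans (le_of_eq ?_)
    rw [nrm_mul, nrm_mul, nrm_nine]
    push_cast
    ring
  · intro a b hab
    have e9 : (9 : Ei) ∣ a - b := (dvd_mul_right _ _).trans hab
    have e1 : (3 : Ei) ∣ a - b := (Dvd.intro _ nine_eq.symm).trans e9
    have e2 : A ∣ a - b := ((dvd_mul_right _ _).trans (dvd_mul_left _ _)).trans hab
    have e3 : B ∣ a - b := ((dvd_mul_left _ _).trans (dvd_mul_left _ _)).trans hab
    have e4 : prm a ↔ prm b := by
      unfold prm
      constructor
      · intro h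
        have := dvd_sub h e1
        have e : a - 1 - (a - b) = b - 1 := by ring
        rwa [e] at this
      · intro h
        have := dvd_add h e1
        have e : b - 1 + (a - b) = a - 1 := by ring
        rwa [e] at this
    unfold pf
    by_cases h : prm a
    · rw [if_pos h, if_pos (e4.1 h), ps_prm h, ps_prm (e4.1 h), hτ.congr a b e9]
      unfold xab
      rw [jac_per hA.ne e2, jac_per hB.ne e3]
    · rw [if_neg h, if_neg (fun hh => h (e4.2 hh))]
  · intro a
    unfold pf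
    have e4 : prm (g * a) ↔ prm a :=
      ⟨fun h => prm_cancel hg3 h, fun h => prm_mul hg3 h⟩
    by_cases h : prm a
    · rw [if_pos h, if_pos (e4.2 h), (ps_ch hτ hA hB t).mul, ps_prm hg3, hxg, one_mul]
    · rw [if_neg h, if_neg (fun hh => h (e4.1 hh)), mul_zero]

/-- character sums -/
lemma ps_le (hτ : Tau τ) {A B : Ei} {t : ZMod 3} (hA : PS A) (hB : PS B) (h1 : A ≠ B ∨ t ≠ 0) {v : ℕ}
    (hv : 1 ≤ v) : ‖∑ d ∈ PB v, ps τ A B t d‖ ≤ 972 * (nrm A * nrm B : ℕ) * Real.sqrt v := by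
  classical
  have h2 : (1 : ℝ) ≤ Real.sqrt v := Real.one_le_sqrt.2 (by exact_mod_cast hv)
  have h3 : (0 : ℝ) ≤ (nrm A : ℝ) * nrm B := by positivity
  by_cases ht : t = 0
  · have hAB : A ≠ B := h1.resolve_right fun h => h ht
    have e : ∑ d ∈ PB v, ps τ A B t d = ∑ d ∈ PB v, xab A B d := by
      refine sum_congr rfl fun d hd => ?_
      rw [ps_prm (mem_PB.1 hd).2, ht, zero_mul, ez_zero, mul_one]
    rw [e]
    refine (chs_le hA hB hAB hv).trans ?_
    push_cast
    nlinarith [mul_nonneg h3 (by linarith : (0 : ℝ) ≤ Real.sqrt v)]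
  · have h := pf_sum hτ hA hB ht v
    have e : ∑ a ∈ ZB v, pf τ A B t a = ∑ d ∈ PB v, ps τ A B t d := by
      unfold PB
      rw [sum_filter]
      rfl
    rw [e] at h
    refine h.trans ?_
    push_cast
    nlinarith

end HalA

open HalA

/-- FF-HAL -/
theorem hal {τ : Ei → ZMod 3} (hτ : Tau τ) : S_HALT τ := by
  classical
  refine ⟨5544, by norm_num, ?_⟩
  intro A B t hA hB h1 T
  have hN1 : 1 ≤ nrm A * nrm B := Nat.mul_pos (nrm_pos' hA.ne) (nrm_pos' hB.ne)
  rcases Nat.eq_zero_or_pos T with h0 | hT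
  · rw [SB_empty h0, sum_empty]
    have h2 := lg_pos T
    have h3 := lg_pos (nrm A * nrm B)
    positivity
  have hch := ps_ch hτ hA hB t
  have hl := one_le_lg (nrm A * nrm B)
  have hlT := lg_pos T
  have hmf : ∀ n ∈ SB T, mf (fun π => (1 + 2 * (xab A B π * ez (t * τ π)).re) / 3) n =
      mf (fun π => (1 + 2 * (ps τ A B t π).re) / 3) n := by
    intro n hn
    unfold mf
    refine prod_congr rfl fun π hπ => ?_
    show (1 + 2 * (xab A B π * ez (t * τ π)).re) / 3 = (1 + 2 * (ps τ A B t π).re) / 3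
    rw [ps_prm (pq_prm ((mem_PD (mem_SB.1 hn).2.ne).1 hπ).1)]
  rw [sum_congr rfl hmf]
  have hAA : ∑ n ∈ PB (T ^ 3), mf (fun π => 3 * ((1 + 2 * (ps τ A B t π).re) / 3)) n / nrm n ≤
      (18399744 * lg (nrm A * nrm B)) * lg T ^ 2 := by
    have e1 : (fun π : Ei => 3 * ((1 + 2 * (ps τ A B t π).re) / 3)) =
        fun π => 1 + 2 * (ps τ A B t π).re := by
      funext π; ring
    rw [e1]
    have hlog : ∀ Y : ℕ, ‖∑ d ∈ PB Y, ps τ A B t d / nrm d‖ ≤ 1992 * lg (nrm A * nrm B) := by
      intro Y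
      have := ch_log hch hN1 (c := 972) (by norm_num) (fun v hv => ps_le hτ hA hB h1 hv) Y
      refine this.trans (le_of_eq ?_)
      norm_num
    refine (conv_bound hch hlog (T ^ 3)).trans ?_
    have e5 := lg_cube T
    have e6 := lg_pos (T ^ 3)
    have e7 : (32 * lg (T ^ 3)) ^ 2 ≤ (96 * lg T) ^ 2 := by
      apply pow_le_pow_left₀ (by positivity)
      linarith
    calc (32 * lg (T ^ 3)) ^ 2 * (1992 * lg (nrm A * nrm B)) ≤
          (96 * lg T) ^ 2 * (1992 * lg (nrm A * nrm B)) := by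
          apply mul_le_mul_of_nonneg_right e7 (by positivity)
      _ = 18358272 * (lg (nrm A * nrm B) * lg T ^ 2) := by ring
      _ ≤ 18399744 * (lg (nrm A * nrm B) * lg T ^ 2) := by
          have : 0 ≤ lg (nrm A * nrm B) * lg T ^ 2 := by positivity
          linarith
      _ = _ := by ring
  have hv := fun π => hch.val π
  have h2 := hall_aux (g := fun π => (1 + 2 * (ps τ A B t π).re) / 3)
    (fun π => by have := re_nonneg (hv π); linarith)
    (fun π => by have := re_le (hv π); linarith) hT (by linarith) hAA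
  refine h2.trans (le_of_eq ?_)
  have e : (18399744 * lg (nrm A * nrm B)) ^ (1 / 3 : ℝ) =
      264 * (lg (nrm A * nrm B)) ^ (1 / 3 : ℝ) := by
    rw [Real.mul_rpow (by norm_num) (by linarith)]
    congr 1
    rw [show (18399744 : ℝ) = 264 ^ (3 : ℝ) by norm_num, ← Real.rpow_mul (by norm_num)]
    norm_num
  rw [e]
  ring

end Pool.Agent.D0H69.L3K
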