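import Pool.Agent.D0H69.L3K.Stm
import Pool.Agent.D0H43.L3.Chi

/-!
# Project L3, module DENK: the symbol of `3 ω ^ i` is a cubic character modulo nine
-/

set_option autoImplicit false

namespace Pool.Agent.D0H69.L3K

open Pool.Agent.Y692.QS (Ei w nr)
open Pool.Agent.N883.FF (nq)
open Pool.Agent.D0H43.L3 (tq yq)
open Pool.Agent.D0H43.L3.Chi (tq_mul tq_congr yq_one nq_one)

/-- elements of norm prime to three are prime to three -/
lemma cop_of_nr {a : Ei} (h : ¬ (3 : ℤ) ∣ nr a) : IsCoprime a 3 := by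
  obtain ⟨c, hc⟩ := Pool.Agent.Y692.QS.ep_congr a h
  have h6 := (Pool.Agent.Y692.QS.ep_cases a h).1
  refine ⟨(Pool.Agent.Y692.QS.ep a) ^ 5, -(c * (Pool.Agent.Y692.QS.ep a) ^ 5), ?_⟩
  have h1 : a = Pool.Agent.Y692.QS.ep a + 3 * c := by rw [← hc]; ring
  generalize Pool.Agent.Y692.QS.ep a = u at *
  rw [h1]
  linear_combination h6

theorem tau_tq (i : ZMod 3) : Tau (tq i) := by
  refine ⟨fun a b ha hb => tq_mul i (cop_of_nr ha) (cop_of_nr hb), fun a b h => ?_, ?_⟩
  · obtain ⟨t, ht⟩ := h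
    exact tq_congr i ht
  · by_cases hi : i = 0
    · refine ⟨1 + 3 * w, ⟨w, by ring⟩, ?_⟩
      unfold tq
      rw [yq_one, nq_one, hi]
      decide
    · refine ⟨1 + 3 * 1, ⟨1, by ring⟩, ?_⟩
      unfold tq
      rw [yq_one, nq_one]
      have h1 : (1 : Ei).re = 1 := by decide
      have h2 : (1 : Ei).im = 0 := by decide
      rw [h1, h2]
      revert hi
      revert i
      decide

end Pool.Agent.D0H69.L3K
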