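import Pool.Agent.D0H69.L3K.Box
import Pool.Agent.D0H69.L3K.Hal
import Pool.Agent.D0H69.L3K.Bad
import Pool.Agent.D0H69.L3K.Key
import Pool.Agent.D0H69.L3K.Asy
import Pool.Agent.D0H69.L3K.Tot
import Pool.Agent.D0H69.L3K.Tq
import Pool.Agent.Y363.XK.Bil
import Pool.Agent.Y710.XK.EQ
import Pool.Agent.Y85.XK.LA
import Pool.Agent.Y804.XK.SYM
import Pool.Agent.Y528.XK.C9
import Pool.Agent.N883.FF.Den3

/-!
# Project L3, module DENK: the exact proportion over the Eisenstein integers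
-/

set_option autoImplicit false

open scoped Classical
open Filter

namespace Pool.Agent.D0H69.L3K

open Pool.Agent.Y692.QS (Ei w nr)
open Pool.Agent.Y703.CT (Dt pD)
open Pool.Agent.Y703.XK (c9)
open Pool.Agent.R419.KF (el)
open Pool.Agent.N883.FF (ClU ClP)
open Pool.Agent.D0H43.L3 (KerT tq)

theorem hc9 : Pool.Agent.Y703.XK.S_C9 := Pool.Agent.Y528.XK.t_C9

/-- the asymptotics for one `M`, for any cubic character modulo nine -/
theorem asyT {τ : Ei → ZMod 3} (hτ : Tau τ) {i : ZMod 3} (hi : i ≠ 0) : AsyT τ i :=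
  asy hc9 (bad (hal hτ)) (key τ Pool.Agent.Y363.XK.t_BIL)
    (box τ Pool.Agent.Y710.XK.t_EQ (Pool.Agent.Y85.XK.t_LA Pool.Agent.Y804.XK.t_SYM hc9)) i hi

/-- there are many cube-free primary elements -/
theorem many : ∃ c : ℝ, 0 < c ∧ ∃ X₀ : ℕ, ∀ X : ℕ, X₀ ≤ X →
    c * X ≤ ({D : Ei | nr D ≤ X ∧ ClP D}.ncard : ℝ) := Pool.Agent.N883.FF.den3.1

theorem top : Tendsto (fun X : ℕ => ({D : Ei | nr D ≤ X ∧ ClP D}.ncard : ℝ)) atTop atTop := by
  obtain ⟨c, hc, X₀, h⟩ := many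
  refine tendsto_atTop_mono' atTop ?_ (tendsto_natCast_atTop_atTop.const_mul_atTop hc)
  filter_upwards [eventually_ge_atTop X₀] with X hX
  exact h X hX

lemma fin_nr (X : ℕ) : {D : Ei | nr D ≤ X}.Finite := by
  refine (Pool.Agent.Y699.E.fin_norm_le X).subset fun D hD => ?_
  have h1 : nr D ≤ X := hD
  rw [← Pool.Agent.Y699.E.nrm_cast] at h1
  exact_mod_cast h1

/-- changing a property at one element -/
theorem change {T T' : Ei → Prop} (z : Ei) (h : ∀ D, D ≠ z → (T D ↔ T' D)) {l : ℝ}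
    (hT : Tendsto (fun X : ℕ => ({D : Ei | nr D ≤ X ∧ ClP D ∧ T D}.ncard : ℝ) /
      ({D : Ei | nr D ≤ X ∧ ClP D}.ncard : ℝ)) atTop (nhds l)) :
    Tendsto (fun X : ℕ => ({D : Ei | nr D ≤ X ∧ ClP D ∧ T' D}.ncard : ℝ) /
      ({D : Ei | nr D ≤ X ∧ ClP D}.ncard : ℝ)) atTop (nhds l) := by
  have h0 : Tendsto (fun X : ℕ => 1 / ({D : Ei | nr D ≤ X ∧ ClP D}.ncard : ℝ)) atTop (nhds 0) := by
    simp only [one_div]
    exact tendsto_inv_atTop_zero.comp top
  have hle : ∀ (A B : Ei → Prop), (∀ D, D ≠ z → (A D ↔ B D)) → ∀ X : ℕ,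
      {D : Ei | nr D ≤ X ∧ ClP D ∧ A D}.ncard ≤ {D : Ei | nr D ≤ X ∧ ClP D ∧ B D}.ncard + 1 := by
    intro A B hAB X
    have hfin : {D : Ei | nr D ≤ X ∧ ClP D ∧ B D}.Finite := (fin_nr X).subset fun D hD => hD.1
    refine (Set.ncard_le_ncard (t := insert z {D : Ei | nr D ≤ X ∧ ClP D ∧ B D}) ?_
      (hfin.insert z)).trans (Set.ncard_insert_le _ _)
    rintro D ⟨h1, h2, h3⟩
    by_cases hD : D = z
    · exact Or.inl hD
    · exact Or.inr ⟨h1, h2, (hAB D hD).1 h3⟩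
  have h1 := hle T T' h
  have h2 := hle T' T fun D hD => (h D hD).symm
  have h3 : Tendsto (fun X : ℕ => ({D : Ei | nr D ≤ X ∧ ClP D ∧ T' D}.ncard : ℝ) /
      ({D : Ei | nr D ≤ X ∧ ClP D}.ncard : ℝ) - ({D : Ei | nr D ≤ X ∧ ClP D ∧ T D}.ncard : ℝ) /
      ({D : Ei | nr D ≤ X ∧ ClP D}.ncard : ℝ)) atTop (nhds 0) := by
    refine squeeze_zero_norm (fun X => ?_) h0
    rw [← sub_div, norm_div, Real.norm_natCast, Real.norm_eq_abs]
    refine div_le_div_of_nonneg_right ?_ (Nat.cast_nonneg _)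
    have k1 : ({D : Ei | nr D ≤ X ∧ ClP D ∧ T D}.ncard : ℝ) ≤
        ({D : Ei | nr D ≤ X ∧ ClP D ∧ T' D}.ncard : ℝ) + 1 := by exact_mod_cast h1 X
    have k2 : ({D : Ei | nr D ≤ X ∧ ClP D ∧ T' D}.ncard : ℝ) ≤
        ({D : Ei | nr D ≤ X ∧ ClP D ∧ T D}.ncard : ℝ) + 1 := by exact_mod_cast h2 X
    rw [abs_le]
    exact ⟨by linarith, by linarith⟩
  have h4 := hT.add h3
  rw [add_zero] at h4
  refine h4.congr fun X => ?_
  ring

/-- **L3-DENK.** The exact proportion over the Eisenstein integers: among the cube-free primary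
elements `z` the proportion of those for which the kernel of the Laplacian with the additional index
`3 ω ^ i` is trivial tends to `c9 = 0.639…`; `T` is any property equivalent to `KerT` for the
nonempty products of primary primes. -/
theorem denk (i : ZMod 3) (T : Ei → Prop)
    (hT : ∀ (n : ℕ) (π : Fin (n + 1) → Ei) (e : Fin (n + 1) → ZMod 3), Dt π e →
      (T (pD π e) ↔ KerT π e i)) :
    Tendsto (fun X : ℕ => ({D : Ei | nr D ≤ X ∧ ClP D ∧ T D}.ncard : ℝ) /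
      ({D : Ei | nr D ≤ X ∧ ClP D}.ncard : ℝ)) atTop (nhds c9) := by
  refine change (T := fun D => D = 1 ∨ T D) 1 (fun D hD => or_iff_right hD) ?_
  refine tot hc9 Pool.Agent.Y550.XK.NS.t_LOW (asyT (tau_tq i) one_ne_zero) _ ?_
  intro M S hMS
  rcases S.eq_empty_or_nonempty with rfl | hne
  · have hM : M = ∅ := Finset.subset_empty.1 hMS.2
    subst hM
    refine iff_of_true (Or.inl ?_) ?_
    · unfold el
      simp
    · intro v hv π hπ
      exact absurd hπ (Finset.notMem_empty _)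
  · obtain ⟨n, π, e, hdt, hel, hg⟩ := datt hMS hne i
    have hne1 : el M S ≠ 1 := by
      rw [hel]
      intro h
      have := Pool.Agent.R419.CE.nunit hdt
      rw [h] at this
      exact this isUnit_one
    rw [or_iff_right hne1, hel, hT n π e hdt]
    exact hg.symm

end Pool.Agent.D0H69.L3K
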