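import Pool.Agent.N883.FF.StmC
import Pool.Agent.D0H43.L3.Defs

/-!
# Project L3, module DENK (helper69): statements of the counting part

Everything as in `Pool/Agent/N883/FF/StmC.lean` (helper883), with the potential `i * nq π` replaced by
`τ π` for a function `τ : Ei → ZMod 3`.
-/

set_option autoImplicit false
set_option linter.unusedVariables false

open scoped Classical

namespace Pool.Agent.D0H69.L3K

open Finset
open Pool.Agent.Y692.QS (Ei w nr toC)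
open Pool.Agent.Y715.T.Rec (cs)
open Pool.Agent.Y715.T.RecG (Pq)
open Pool.Agent.Y699.E (ez nrm QB SB PS mf xab lg)
open Pool.Agent.Y703.CX (jj XX eL zz kk)
open Pool.Agent.Y703.XK (sm la bl prs HB c9 S_BIL S_EQ S_LA S_C9)
open Pool.Agent.R419.KF (wt SG)
open Pool.Agent.N883.FF (ClU SU RRU ClP)
open Pool.Agent.D0H43.L3 (KerT tq)

/-- a cubic character modulo nine, not trivial on the primary elements, in additive notation -/
structure Tau (τ : Ei → ZMod 3) : Prop where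
  mul : ∀ a b : Ei, ¬ (3 : ℤ) ∣ nr a → ¬ (3 : ℤ) ∣ nr b → τ (a * b) = τ a + τ b
  congr : ∀ a b : Ei, (9 : Ei) ∣ a - b → τ a = τ b
  ex : ∃ g : Ei, (3 : Ei) ∣ g - 1 ∧ τ g ≠ 0

/-- all solutions of the system with the potential `i * τ` are zero -/
def GdT (τ : Ei → ZMod 3) (i : ZMod 3) (M S : Finset Ei) : Prop :=
  ∀ v : Ei → ZMod 3, (∀ π ∈ S, ∑ ρ ∈ S, wt M ρ * cs π ρ * (v ρ - v π) = i * τ π * v π) →
    ∀ π ∈ S, v π = 0

/-- the labels of the large primes with respect to the small ones and to `τ` are not degenerate -/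
def NdT (τ : Ei → ZMod 3) (S₀ S₁ : Finset Ei) : Prop :=
  ∀ (v : Ei → ZMod 3) (t : ZMod 3), ((∃ u ∈ S₀, v u ≠ 0) ∨ t ≠ 0) →
    ∃ π ∈ S₁, ∑ u ∈ S₀, v u * cs u π + t * τ π ≠ 0

/-- mean values with `τ`. -/
def S_HALT (τ : Ei → ZMod 3) : Prop := ∃ C : ℝ, 1 ≤ C ∧ ∀ (A B : Ei) (t : ZMod 3), PS A → PS B →
  (A ≠ B ∨ t ≠ 0) →
  ∀ T : ℕ, ∑ n ∈ SB T, mf (fun π => (1 + 2 * (xab A B π * ez (t * τ π)).re) / 3) n ≤
    C * (lg (nrm A * nrm B)) ^ (1 / 3 : ℝ) * (T * (lg T) ^ (-(1 / 3) : ℝ))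

/-- few sets have degenerate labels. -/
def S_BADT (τ : Ei → ZMod 3) : Prop := ∀ ε : ℝ, 0 < ε → ∃ X₀ : ℕ, ∀ X : ℕ, X₀ ≤ X →
  (((SG X).filter fun S => S.card ≤ kk X ∧ ¬ NdT τ (sm (zz X) S) (la (zz X) S)).card : ℝ) ≤ ε * X

/-- the count in a box on which `τ` is constant. -/
def S_BOXT (τ : Ei → ZMod 3) : Prop := ∀ (i : ZMod 3), i ≠ 0 → ∀ (ι : Type) [Fintype ι] [LinearOrder ι]
  (C : ι → Finset Ei) (X : ι → ℕ) (κ : ℝ) (M S₀ : Finset Ei), M ⊆ S₀ → 0 ≤ κ →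
  (∀ i, (C i).card ≤ X i) → HB C X κ → (∀ u ∈ S₀, Pq u) → (∀ i, ∀ π ∈ C i, Pq π ∧ π ∉ S₀) →
  (∀ i l, i ≠ l → Disjoint (C i) (C l)) → (∀ i, ∀ π ∈ C i, ∀ ρ ∈ C i, τ π = τ ρ) →
  S₀.card + 1 < Fintype.card ι →
  |(((Fintype.piFinset C).filter fun p => NdT τ S₀ (univ.image p) ∧
      GdT τ i M (S₀ ∪ univ.image p)).card : ℝ) -
      c9 * (((Fintype.piFinset C).filter fun p => NdT τ S₀ (univ.image p)).card : ℝ)| ≤
    3 * (3 ^ (S₀.card + 1) / 3 ^ Fintype.card ι) *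
      (((Fintype.piFinset C).filter fun p => NdT τ S₀ (univ.image p)).card : ℝ) +
    3 ^ (S₀.card * Fintype.card ι + (prs ι).card) * (κ * ∏ j, (X j : ℝ))

/-- the sum over the boxes. -/
def S_KEYT (τ : Ei → ZMod 3) : Prop := S_BOXT τ → ∀ (i : ZMod 3), i ≠ 0 → ∃ C : ℝ, 1 ≤ C ∧
  ∀ (M : Finset Ei) (X z H k V N : ℕ) (κ : ℝ), (∀ q ∈ M, nrm q ≤ z) → 1 ≤ X → 1 ≤ H → 1 ≤ z →
  1 ≤ V → 0 ≤ κ → C ≤ κ ^ 24 * z → (H : ℝ) * Real.log X < N →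
  |(((RRU M X z H k V).filter fun S => NdT τ (sm z S) (la z S) ∧ GdT τ i M S).card : ℝ) -
      c9 * (((RRU M X z H k V).filter fun S => NdT τ (sm z S) (la z S)).card : ℝ)| ≤
    9 * (1 / 3 : ℝ) ^ V * ((RRU M X z H k V).card : ℝ) +
    (9 * N + 9 : ℝ) ^ k * (3 ^ (9 * k ^ 2 + 9) * κ) * (X * (1 + Real.log X))

/-- the asymptotics for one `M`. -/
def AsyT (τ : Ei → ZMod 3) (i : ZMod 3) : Prop := ∀ (M : Finset Ei) (ε : ℝ),
  0 < ε → ∃ X₀ : ℕ, ∀ X : ℕ, X₀ ≤ X →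
    |(((SU M X).filter (GdT τ i M)).card : ℝ) - c9 * ((SU M X).card : ℝ)| ≤ ε * X

end Pool.Agent.D0H69.L3K
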